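import Pool.Agent.Helper48.V9.Kummer
import Pool.Agent.Helper73.SS.AddCover
import Pool.Agent.Helper73.V7.Ell

/-! Project V9: the surfaces `F(x, y, w ^ n) = 0` as cyclic covers. -/

set_option autoImplicit false

namespace Pool.Agent.Helper48.V9

open IntermediateField Pool.Agent.Helper75.QC Pool.Agent.Helper35.V7

/-- `K = Ω(x, y, w)`, `n = [K : Ω(x, y, w ^ n)]`, `F(x, y, w ^ n) = 0`. -/
theorem power_rows {Ω K : Type} [Field Ω] [IsAlgClosed Ω] [Field K] [Algebra Ω K] {n : ℕ}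
    (hn : (n : Ω) ≠ 0) (a b c : ℕ) (F : MvPolynomial (Fin 3) Ω) (x y w : K)
    (hK : adjoin Ω {x, y, w} = ⊤)
    (hfin : Module.finrank (adjoin Ω {x, y, w ^ n} : IntermediateField Ω K) K = n)
    (habc : 0 < a + b + c) (hF : F ≠ 0)
    (hd : ∀ m ∈ F.support, a * m 0 + b * m 1 + 2 * c * m 2 ≤ a + b + c)
    (h0 : MvPolynomial.aeval ![x, y, w ^ n] F = 0) :
    ∃ R : IntermediateField Ω K, FiniteDimensional R K ∧ IsGalois R K ∧
      (∀ g h : K ≃ₐ[R] K, g * h = h * g) ∧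
      ∀ M : IntermediateField R K, Uniruled Ω M 2 ∨ Row3 Ω R M := by
  classical
  obtain ⟨R, hR⟩ : ∃ R : IntermediateField Ω K, R = adjoin Ω {x, y, w ^ n} := ⟨_, rfl⟩
  have mx : x ∈ R := by
    rw [hR]
    exact subset_adjoin _ _ (by simp)
  have my : y ∈ R := by
    rw [hR]
    exact subset_adjoin _ _ (by simp)
  have mw : w ^ n ∈ R := by
    rw [hR]
    exact subset_adjoin _ _ (by simp)
  have htop : adjoin R {w} = ⊤ := by
    rw [eq_top_iff]
    intro v _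
    have h1 : adjoin Ω {x, y, w} ≤ (adjoin R {w}).restrictScalars Ω := by
      rw [adjoin_le_iff]
      rintro s (hs | hs | hs)
      · rw [hs]
        exact (adjoin R {w}).algebraMap_mem ⟨x, mx⟩
      · rw [hs]
        exact (adjoin R {w}).algebraMap_mem ⟨y, my⟩
      · rw [hs]
        exact mem_adjoin_simple_self R w
    exact h1 (by
      rw [hK]
      exact mem_top)
  obtain ⟨hfd, hgal, hcomm, hM⟩ := kummer_fields R hn mw htop (by rw [hR, hfin])
  refine ⟨R, hfd, hgal, hcomm, fun M => ?_⟩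
  obtain ⟨k, m, hkm, hMw, hk⟩ := hM M
  have hxM : x ∈ M := M.algebraMap_mem ⟨x, mx⟩
  have hyM : y ∈ M := M.algebraMap_mem ⟨y, my⟩
  have hnM : w ^ n ∈ M := M.algebraMap_mem ⟨w ^ n, mw⟩
  have hwM : w ^ m ∈ M := by
    rw [hMw]
    exact mem_adjoin_simple_self _ _
  obtain ⟨g1, g2, g3⟩ := Pool.Agent.Helper73.SS.gens_of R hR M hMw hxM hyM hnM hwM
  have e1 : (⟨w ^ m, hwM⟩ : M) ^ k = ⟨w ^ n, hnM⟩ := by
    apply Subtype.ext
    show (w ^ m) ^ k = w ^ n
    rw [← pow_mul, hkm, mul_comm m]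
  have hGM : IsGalois R M := (Pool.Agent.Helper35.WC.isGalois_of_comm hcomm M)
  have hMfd : FiniteDimensional R M := inferInstance
  refine Pool.Agent.Helper73.V7.IsPullback.row (R := R) (M := M)
    ⟨k, a, b, c, F, ⟨x, hxM⟩, ⟨y, hyM⟩, ⟨w ^ m, hwM⟩, ?_, ?_, ?_, habc, hF, hd, ?_⟩
  · rw [e1]
    exact g1
  · rw [eq_top_iff, ← g3, adjoin_le_iff]
    rintro s (rfl | rfl | rfl | rfl)
    · exact subset_adjoin _ _ (by simp)
    · exact subset_adjoin _ _ (by simp)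
    · rw [← e1]
      exact pow_mem (subset_adjoin _ _ (by simp)) _
    · exact subset_adjoin _ _ (by simp)
  · rw [e1, Pool.Agent.Helper73.SS.finrank_of_range _ g1 g2, hk]
  · rw [e1]
    apply Subtype.ext
    let f : M →ₐ[Ω] K := M.val.restrictScalars Ω
    have h1 : f ∘ ![(⟨x, hxM⟩ : M), ⟨y, hyM⟩, ⟨w ^ n, hnM⟩] = ![x, y, w ^ n] := by
      funext i
      fin_cases i
      · rfl
      · rfl
      · rfl
    have h2 : f (MvPolynomial.aeval ![(⟨x, hxM⟩ : M), ⟨y, hyM⟩, ⟨w ^ n, hnM⟩] F) = 0 := by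
      rw [← AlgHom.comp_apply, MvPolynomial.comp_aeval]
      show MvPolynomial.aeval (f ∘ _) F = 0
      rw [h1, h0]
    exact h2

end Pool.Agent.Helper48.V9
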