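import Pool.Agent.Helper48.V9.Wild3

/-! Project V9: abelian extensions with tame and wild cyclic subextensions. -/

set_option autoImplicit false

namespace Pool.Agent.Helper48.V9

open IntermediateField Pool.Agent.Helper75.QC Pool.Agent.Helper35.TD Pool.Agent.Helper35.WC
  Pool.Agent.Helper35.V7 Pool.Agent.Helper73.QX Pool.Agent.Helper73.WT

/-- The data of a cyclic cover `M / R` of degree `p` in the characteristic `p`. -/
def RowV (Ω R M : Type) [Field Ω] [Field R] [Field M] [Algebra Ω M] [Algebra R M] : Prop :=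
  ∃ p : ℕ, p.Prime ∧ (p : Ω) = 0 ∧ RowW p Ω R M

variable {F Ω L : Type} [Field F] [Field Ω] [Algebra F Ω] [Algebra.IsAlgebraic F Ω]
    [IsAlgClosed Ω] [Field L] [CharZero L] [IsAlgClosed L] (T : GaloisTheory F Ω L)

omit [IsAlgClosed Ω] [CharZero L] [IsAlgClosed L] in
/-- The fields between `R` and `M`. -/
theorem noTate_sub {K : Type} [Field K] [Algebra Ω K] (R : IntermediateField Ω K)
    [FiniteDimensional R K] (hfg : ∀ M : IntermediateField R K, (⊤ : IntermediateField Ω M).FG)
    (M : IntermediateField R K) (hc : IsCyclic (M ≃ₐ[R] M)) [IsGalois R M]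
    (IH : ∀ M'' : IntermediateField R K, Module.finrank R M'' < Module.finrank R M →
      IsCyclic (M'' ≃ₐ[R] M'') → NoTate T M'') (N : IntermediateField Ω M)
    (hR : ∀ r : R, algebraMap R M r ∈ N) (hN : N ≠ ⊤) (hNfg : (⊤ : IntermediateField Ω N).FG) :
    NoTate T N := by
  let M' : IntermediateField R M :=
    { N.toSubfield with
      algebraMap_mem' := fun r => hR r }
  have hcM' : IsCyclic (M' ≃ₐ[R] M') := cyclic_sub hc M'
  let e : M' ≃ₐ[R] lift M' := liftAlgEquiv M'
  have hcL : IsCyclic (lift M' ≃ₐ[R] lift M') :=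
    (MulEquiv.isCyclic (AlgEquiv.autCongr e)).1 hcM'
  have hlt : M' ≠ ⊤ := by
    intro htop
    apply hN
    rw [eq_top_iff]
    intro a _
    have h1 : a ∈ M' := by
      rw [htop]
      exact mem_top
    exact h1
  have hfin : Module.finrank R (lift M') < Module.finrank R M := by
    rw [← e.toLinearEquiv.finrank_eq]
    have h1 : M' < ⊤ := lt_top_iff_ne_top.2 hlt
    have h2 : Module.finrank R M' < Module.finrank R (⊤ : IntermediateField R M) := by
      by_contra h3
      rw [not_lt] at h3
      exact h1.ne (IntermediateField.eq_of_le_of_finrank_le h1.le h3)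
    rwa [finrank_top'] at h2
  have h1 := IH (lift M') hfin hcL
  let ι : N →ₐ[Ω] lift M' :=
    { toFun := fun a => e ⟨a.1, a.2⟩
      map_one' := rfl
      map_mul' := fun _ _ => rfl
      map_zero' := rfl
      map_add' := fun _ _ => rfl
      commutes' := fun _ => rfl }
  refine NoTate.of_hom T h1 (hfg _) hNfg ι ?_
  intro a
  obtain ⟨b, hb⟩ := e.surjective a
  exact isAlgebraic_algebraMap (⟨a, ⟨b.1, b.2⟩, hb⟩ : ι.fieldRange)

theorem noTate_rows9 {K : Type} [Field K] [Algebra Ω K] (R : IntermediateField Ω K)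
    (hR : (⊤ : IntermediateField Ω R).FG) [FiniteDimensional R K] [IsGalois R K]
    (hab : ∀ g h : K ≃ₐ[R] K, g * h = h * g)
    (H : ∀ M : IntermediateField R K, IsCyclic (M ≃ₐ[R] M) →
      NoTate T M ∨ Row3 Ω R M ∨ RowV Ω R M) :
    NoTate T K ∧ (⊤ : IntermediateField Ω K).FG := by
  classical
  have hfg : ∀ M : IntermediateField R K, (⊤ : IntermediateField Ω M).FG := by
    intro M
    have h1 := Pool.Agent.Helper48.WC.fg_top_of_fg (Pool.Agent.Helper48.WC.fg_restrict R
      (Pool.Agent.Helper48.WC.fg_of_fg_top hR) M)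
    exact h1
  refine noTate_of_cyclic T R hab fun M hc => ⟨?_, hfg M⟩
  obtain ⟨k, hk⟩ : ∃ k, k = Module.finrank R M := ⟨_, rfl⟩
  induction k using Nat.strong_induction_on generalizing M with
  | _ k IH =>
  have hGM : IsGalois R M := isGalois_of_comm hab M
  have IH' : ∀ M'' : IntermediateField R K, Module.finrank R M'' < Module.finrank R M →
      IsCyclic (M'' ≃ₐ[R] M'') → NoTate T M'' :=
    fun M'' h1 h2 => IH _ (hk ▸ h1) M'' h2 rfl
  rcases H M hc with h | ⟨n, α, β, x, y, z, w, hn0, hnΩ, hαβ, hα, hβ, hαβ', hz, hRle, hK, hdeg,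
    hw0, hwn, huni⟩ | ⟨p, hp, hpΩ, x, y, z, w, hz, hRle, hK, hdeg, hwp, huni⟩
  · exact h
  · refine tame3 T α β hαβ hn0 hnΩ x y z w hz hK hw0 hwn hdeg huni ?_
    intro ξ hξn hξ
    obtain ⟨d, hd⟩ : ∃ d, d = orderOf ξ := ⟨_, rfl⟩
    have hdn : d ∣ n := by
      rw [hd]
      exact orderOf_dvd_of_pow_eq_one hξn
    obtain ⟨m, hm⟩ := hdn
    have hne : d ≠ n := by
      rintro rfl
      rcases hξ with h | h | h
      · exact hα (hd ▸ orderOf_dvd_of_pow_eq_one h)
      · exact hβ (hd ▸ orderOf_dvd_of_pow_eq_one h)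
      · exact hαβ' (hd ▸ orderOf_dvd_of_pow_eq_one h)
    have hd0 : 0 < d := Nat.pos_of_ne_zero (by
      rintro rfl
      rw [zero_mul] at hm
      omega)
    have hm0 : 0 < m := Nat.pos_of_ne_zero (by
      rintro rfl
      rw [mul_zero] at hm
      omega)
    have hdlt : d < n := lt_of_le_of_ne (by
      rw [hm]
      exact Nat.le_mul_of_pos_right _ hm0) hne
    refine ⟨d, m, hm, by rw [hd]; exact pow_orderOf_eq_one ξ, ?_⟩
    have hPN : (adjoin Ω {x, y, z} : IntermediateField Ω M) ≤ adjoin Ω {x, y, z, w ^ m} :=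
      adjoin.mono Ω _ _ (by
        rintro a (rfl | rfl | rfl)
        · simp
        · simp
        · simp)
    refine noTate_sub T R hfg M hc IH' _ (fun r => hPN (hRle r)) ?_
      (Pool.Agent.Helper75.WC.fg_sub (Set.toFinite _))
    -- the degree of `N` over `P` is at most `d`
    intro hNtop
    obtain ⟨P, hP⟩ : ∃ P : IntermediateField Ω M, P = adjoin Ω {x, y, z} := ⟨_, rfl⟩
    have hfinP : FiniteDimensional P M := Module.finite_of_finrank_pos (by
      rw [hP, hdeg]
      exact hn0)
    obtain ⟨Q, hQ⟩ : ∃ Q : IntermediateField P M, Q = adjoin P {w ^ m} := ⟨_, rfl⟩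
    have hQtop : Q = ⊤ := by
      rw [eq_top_iff]
      intro a _
      have h1 : (adjoin Ω {x, y, z, w ^ m} : IntermediateField Ω M) ≤ Q.restrictScalars Ω := by
        rw [adjoin_le_iff]
        have hx : x ∈ P := by
          rw [hP]
          exact subset_adjoin _ _ (by simp)
        have hy : y ∈ P := by
          rw [hP]
          exact subset_adjoin _ _ (by simp)
        have hz' : z ∈ P := by
          rw [hP]
          exact subset_adjoin _ _ (by simp)
        rintro b (rfl | rfl | rfl | rfl)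
        · exact Q.algebraMap_mem (⟨_, hx⟩ : P)
        · exact Q.algebraMap_mem (⟨_, hy⟩ : P)
        · exact Q.algebraMap_mem (⟨_, hz'⟩ : P)
        · show w ^ m ∈ Q
          rw [hQ]
          exact subset_adjoin _ _ rfl
      exact h1 (by
        rw [hNtop]
        exact mem_top)
    have h2 : Module.finrank P Q ≤ d := by
      rw [hQ, adjoin.finrank (Algebra.IsIntegral.isIntegral _)]
      have hwP : w ^ n ∈ P := by
        rw [hP]
        exact hwn
      have h3 : minpoly P (w ^ m) ∣ Polynomial.X ^ d - Polynomial.C (⟨w ^ n, hwP⟩ : P) := by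
        refine minpoly.dvd P _ ?_
        rw [map_sub, map_pow, Polynomial.aeval_X, Polynomial.aeval_C]
        show (w ^ m) ^ d - w ^ n = 0
        rw [← pow_mul, mul_comm m, ← hm, sub_self]
      have h4 := Polynomial.natDegree_le_of_dvd h3 (Polynomial.X_pow_sub_C_ne_zero hd0 _)
      rwa [Polynomial.natDegree_X_pow_sub_C] at h4
    have h5 : Module.finrank P Q = n := by
      rw [hQtop, finrank_top', ← hdeg, hP]
    omega
  · have hpf : Fact p.Prime := ⟨hp⟩
    have hch : CharP Ω p := (CharP.charP_iff_prime_eq_zero hp).2 hpΩ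
    let _ : Algebra (ZMod p) Ω := ZMod.algebra Ω p
    refine wild3 T x y z w hz hK hwp hdeg huni ?_
    refine noTate_sub T R hfg M hc IH' _ hRle ?_ (Pool.Agent.Helper75.WC.fg_sub (Set.toFinite _))
    intro htop
    have h1 : Module.finrank (adjoin Ω {x, y, z} : IntermediateField Ω M) M = 1 := by
      rw [htop]
      exact IntermediateField.finrank_top
    rw [hdeg] at h1
    exact hp.ne_one h1

end Pool.Agent.Helper48.V9
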