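import Pool.Agent.Helper73.V7.Power

/-! Project V9. Cyclic covers of the weighted planes of degree at most six with the natural
condition. -/

set_option autoImplicit false

namespace Pool.Agent.Helper48.V9

open IntermediateField MvPolynomial Pool.Agent.Helper75.QC Pool.Agent.Helper35.V7
  Pool.Agent.Helper75.WC

/-- the degree for the weights `a`, `b` is at most `d` -/
def Wd {Ω : Type} [Field Ω] (a b d : ℕ) (f : MvPolynomial (Fin 2) Ω) : Prop :=
  ∀ m ∈ f.support, a * m 0 + b * m 1 ≤ d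

section

variable {Ω : Type} [Field Ω] {a b : ℕ}

theorem Wd.mono {d d' : ℕ} {f : MvPolynomial (Fin 2) Ω} (h : Wd a b d f) (hd : d ≤ d') :
    Wd a b d' f := fun m hm => (h m hm).trans hd

theorem Wd.one : Wd a b 0 (1 : MvPolynomial (Fin 2) Ω) := by
  classical
  intro m hm
  rw [mem_support_iff, coeff_one] at hm
  have h1 : 0 = m := by
    by_contra h1
    rw [if_neg h1] at hm
    exact hm rfl
  subst h1
  simp

theorem Wd.mul {d d' : ℕ} {f g : MvPolynomial (Fin 2) Ω} (hf : Wd a b d f) (hg : Wd a b d' g) :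
    Wd a b (d + d') (f * g) := by
  classical
  intro m hm
  obtain ⟨u, hu, v, hv, rfl⟩ := Finset.mem_add.1 (MvPolynomial.support_mul f g hm)
  have h1 := hf u hu
  have h2 := hg v hv
  simp only [Finsupp.add_apply, mul_add]
  omega

theorem Wd.pow {d : ℕ} {f : MvPolynomial (Fin 2) Ω} (hf : Wd a b d f) (k : ℕ) :
    Wd a b (d * k) (f ^ k) := by
  induction k with
  | zero =>
    rw [mul_zero, pow_zero]
    exact Wd.one
  | succ k ih =>
    rw [mul_add, mul_one, pow_succ]
    exact ih.mul hf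

theorem Wd.prod {r : ℕ} {d : Fin r → ℕ} {f : Fin r → MvPolynomial (Fin 2) Ω}
    (hf : ∀ i, Wd a b (d i) (f i)) (e : Fin r → ℕ) :
    Wd a b (∑ i, d i * e i) (∏ i, f i ^ e i) := by
  classical
  refine Finset.induction_on (Finset.univ : Finset (Fin r)) ?_ ?_
  · rw [Finset.sum_empty, Finset.prod_empty]
    exact Wd.one
  · intro i s hi ih
    rw [Finset.sum_insert hi, Finset.prod_insert hi]
    exact ((hf i).pow _).mul ih

theorem Wd.degLE {l c i k d : ℕ} {f : MvPolynomial (Fin 2) Ω} (hf : Wd a b d f)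
    (h : l * d + c * i ≤ k) : DegLE (l * a) (l * b) c i k f := by
  intro m hm
  have h1 := Nat.mul_le_mul_left l (hf m hm)
  have h2 : l * a * m 0 + l * b * m 1 = l * (a * m 0 + b * m 1) := by ring
  omega

end

/-- The exponents are multiplied by a number prime to `n`. -/
theorem unit_change {Ω M : Type} [Field Ω] [Field M] [Algebra Ω M] {x y w : M} {n t r : ℕ}
    (hn : 0 < n) (ht : t.Coprime n) (e : Fin r → ℕ) (f : Fin r → MvPolynomial (Fin 2) Ω)
    (hw0 : w ≠ 0) (h : w ^ n = ∏ i, aeval ![x, y] (f i) ^ e i) :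
    ∃ w' : M, w' ≠ 0 ∧ w' ^ n = ∏ i, aeval ![x, y] (f i) ^ (t * e i % n) ∧
      (∀ i, 0 < t * e i % n → aeval ![x, y] (f i) ≠ 0) ∧
      ∀ N : IntermediateField Ω M, x ∈ N → y ∈ N → w' ∈ N → w ∈ N := by
  classical
  have hne : ∀ i, e i ≠ 0 → aeval ![x, y] (f i) ≠ 0 := by
    intro i hi h0
    apply hw0
    have h1 : w ^ n = 0 := by
      rw [h]
      exact Finset.prod_eq_zero (Finset.mem_univ i) (by rw [h0, zero_pow hi])
    exact pow_eq_zero_iff (hn.ne') |>.1 h1
  obtain ⟨q, hq⟩ : ∃ q : M, q = ∏ i, aeval ![x, y] (f i) ^ (t * e i / n) := ⟨_, rfl⟩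
  have hq0 : q ≠ 0 := by
    rw [hq, Finset.prod_ne_zero_iff]
    intro i _
    by_cases hi : e i = 0
    · rw [hi, mul_zero, Nat.zero_div, pow_zero]
      exact one_ne_zero
    · exact pow_ne_zero _ (hne i hi)
  refine ⟨w ^ t / q, div_ne_zero (pow_ne_zero _ hw0) hq0, ?_, fun i hi => ?_, fun N hx hy hN => ?_⟩
  · rw [div_pow, ← pow_mul, mul_comm t n, pow_mul, h, div_eq_iff (pow_ne_zero _ hq0), hq,
      ← Finset.prod_pow, ← Finset.prod_pow, ← Finset.prod_mul_distrib]
    refine Finset.prod_congr rfl fun i _ => ?_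
    rw [← pow_mul, ← pow_mul, ← pow_add]
    congr 1
    have h1 := Nat.mod_add_div (t * e i) n
    rw [mul_comm (e i) t, mul_comm _ n]
    exact h1.symm
  · apply hne
    intro h0
    rw [h0, mul_zero, Nat.zero_mod] at hi
    exact lt_irrefl _ hi
  · have hval : ∀ g : MvPolynomial (Fin 2) Ω, aeval ![x, y] g ∈ N := fun g =>
      mem_valr75 g x y N hx hy
    have hqN : q ∈ N := by
      rw [hq]
      exact prod_mem fun i _ => pow_mem (hval _) _
    have hwt : w ^ t ∈ N := by
      have h1 := mul_mem hN hqN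
      rwa [div_mul_cancel₀ _ hq0] at h1
    have hwn : w ^ n ∈ N := by
      rw [h]
      exact prod_mem fun i _ => pow_mem (hval _) _
    rcases Nat.lt_or_ge 1 n with hn1 | hn1
    · obtain ⟨A, -, hA⟩ := Nat.exists_mul_mod_eq_one_of_coprime ht hn1
      have h1 : t * A = 1 + n * (t * A / n) := by
        have h2 := Nat.mod_add_div (t * A) n
        rw [hA] at h2
        exact h2.symm
      have h3 : w = (w ^ t) ^ A / (w ^ n) ^ (t * A / n) := by
        rw [eq_div_iff (pow_ne_zero _ (pow_ne_zero _ hw0)), ← pow_mul, ← pow_mul, h1, pow_add,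
          pow_one]
        congr 2
        rw [← h1]
      rw [h3]
      exact div_mem (pow_mem hwt _) (pow_mem hwn _)
    · have hn' : n = 1 := by omega
      rw [hn', pow_one] at hwn
      exact hwn

/-- The natural condition for the weights `a`, `b` and for `n ≤ 6`. -/
def IsWCurve (Ω : Type) {M : Type} [Field Ω] [Field M] [Algebra Ω M] (n : ℕ) (x y w : M) : Prop :=
  ∃ (a b r : ℕ) (d e : Fin r → ℕ) (f : Fin r → MvPolynomial (Fin 2) Ω), 0 < a + b ∧ n ≤ 6 ∧
    (∀ i, Wd a b (d i) (f i)) ∧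
    (∀ k < n, k.Coprime n → ∑ i, d i * (k * e i % n) ≤ n * (a + b) ∨
      ∑ i, d i * ((n - k) * e i % n) ≤ n * (a + b)) ∧
    w ^ n = ∏ i, aeval ![x, y] (f i) ^ e i

theorem IsWCurve.weighted {Ω M : Type} [Field Ω] [Field M] [Algebra Ω M] {n : ℕ} {x y w : M}
    (h : IsWCurve Ω n x y w) (hn : 1 < n) (hw0 : w ≠ 0) :
    ∃ w' : M, IsWeighted Ω n x y w' ∧
      ∀ N : IntermediateField Ω M, x ∈ N → y ∈ N → w' ∈ N → w ∈ N := by
  classical
  obtain ⟨a, b, r, d, e, f, hab, hn6, hf, hnat, h⟩ := h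
  by_cases hn5 : n = 5
  · subst hn5
    -- the unit
    obtain ⟨t, ht, h1, h2⟩ : ∃ t : ℕ, t.Coprime 5 ∧ ∑ i, d i * (t * e i % 5) ≤ 5 * (a + b) ∧
        ∑ i, d i * (2 * (t * e i % 5) % 5) ≤ 5 * (a + b) := by
      have e1 := hnat 1 (by norm_num) (by norm_num)
      have e2 := hnat 2 (by norm_num) (by norm_num)
      have key : ∀ t k : ℕ, k % 5 = 2 * t % 5 → ∑ i, d i * (k * e i % 5) ≤ 5 * (a + b) →
          ∑ i, d i * (2 * (t * e i % 5) % 5) ≤ 5 * (a + b) := by
        intro t k hk h3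
        refine le_of_eq_of_le (Finset.sum_congr rfl fun i _ => ?_) h3
        congr 1
        rw [Nat.mul_mod 2, Nat.mod_mod, ← Nat.mul_mod, ← mul_assoc, Nat.mul_mod, ← hk,
          ← Nat.mul_mod]
      rcases e1 with e1 | e1
      · rcases e2 with e2 | e2
        · exact ⟨1, by norm_num, e1, key 1 2 rfl e2⟩
        · refine ⟨3, by norm_num, e2, key 3 1 rfl e1⟩
      · rcases e2 with e2 | e2
        · exact ⟨2, by norm_num, e2, key 2 4 rfl e1⟩
        · exact ⟨4, by norm_num, e1, key 4 3 rfl e2⟩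
    obtain ⟨w', hw'0, hw', hne, hgen⟩ := unit_change (by norm_num) ht e f hw0 h
    obtain ⟨c, hc⟩ : ∃ c : Fin r → ℕ, c = fun i => t * e i % 5 := ⟨_, rfl⟩
    have hci : ∀ i, t * e i % 5 = c i := fun i => by rw [hc]
    simp only [hci] at h1 h2 hw' hne
    have hc5 : ∀ i, c i < 5 := fun i => by
      rw [hc]
      exact Nat.mod_lt _ (by norm_num)
    obtain ⟨m, hm⟩ : ∃ m : ℕ → ℕ, m = fun j => if j = 1 then 1 else if j = 2 then 2 else
      if j = 4 then 1 else 0 := ⟨_, rfl⟩
    obtain ⟨g, hg⟩ : ∃ g : ℕ → ℕ, g = fun j => if 3 ≤ j then 1 else 0 := ⟨_, rfl⟩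
    have hmg : ∀ j < 5, j = m j + 3 * g j ∧ 2 * j % 5 = 2 * m j + g j := by
      intro j hj
      rw [hm, hg]
      interval_cases j <;> norm_num
    obtain ⟨F, hF⟩ : ∃ F : MvPolynomial (Fin 2) Ω, F = ∏ i, f i ^ m (c i) := ⟨_, rfl⟩
    obtain ⟨G, hG⟩ : ∃ G : MvPolynomial (Fin 2) Ω, G = ∏ i, f i ^ g (c i) := ⟨_, rfl⟩
    obtain ⟨DF, hDF⟩ : ∃ D, D = ∑ i, d i * m (c i) := ⟨_, rfl⟩
    obtain ⟨DG, hDG⟩ : ∃ D, D = ∑ i, d i * g (c i) := ⟨_, rfl⟩
    have hFd : Wd a b DF F := by
      rw [hF, hDF]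
      exact Wd.prod hf _
    have hGd : Wd a b DG G := by
      rw [hG, hDG]
      exact Wd.prod hf _
    have hs1 : DF + 3 * DG ≤ 5 * (a + b) := by
      refine le_of_eq_of_le ?_ h1
      rw [hDF, hDG, Finset.mul_sum, ← Finset.sum_add_distrib]
      refine Finset.sum_congr rfl fun i _ => ?_
      conv_rhs => rw [(hmg _ (hc5 i)).1]
      ring
    have hs2 : 2 * DF + DG ≤ 5 * (a + b) := by
      refine le_of_eq_of_le ?_ h2
      rw [hDF, hDG, Finset.mul_sum, ← Finset.sum_add_distrib]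
      refine Finset.sum_congr rfl fun i _ => ?_
      rw [(hmg _ (hc5 i)).2]
      ring
    have hG0 : aeval ![x, y] G ≠ 0 := by
      rw [hG, map_prod, Finset.prod_ne_zero_iff]
      intro i _
      rw [map_pow]
      by_cases h3 : 3 ≤ c i
      · exact pow_ne_zero _ (hne i (by omega))
      · have h4 : g (c i) = 0 := by
          rw [hg]
          exact if_neg h3
        rw [h4, pow_zero]
        exact one_ne_zero
    have heq : w' ^ 5 = aeval ![x, y] F * aeval ![x, y] G ^ 3 := by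
      rw [hw', hF, hG, map_prod, map_prod, ← Finset.prod_pow, ← Finset.prod_mul_distrib]
      refine Finset.prod_congr rfl fun i _ => ?_
      rw [map_pow, map_pow, ← pow_mul, ← pow_add]
      congr 1
      conv_lhs => rw [(hmg _ (hc5 i)).1]
      ring
    refine ⟨w' / aeval ![x, y] G, ?_, fun N hx hy hN => hgen N hx hy ?_⟩
    · have heq' : (w' / aeval ![x, y] G) ^ 5 * aeval ![x, y] G ^ 2 = aeval ![x, y] F := by
        rw [div_pow, heq]
        field_simp
      rcases Nat.lt_or_ge DG (a + b) with h3 | h3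
      · refine ⟨2 * a, 2 * b, a + b - DG, 3, 1, F, G, by omega, Or.inl (by norm_num),
          hFd.degLE (by omega), Or.inl ⟨Or.inl rfl, hGd.degLE (by omega), hG0, heq'⟩⟩
      · have hFd' := hFd.degLE (l := 1) (c := DG - (a + b)) (i := 5)
          (k := 2 * (1 * a + 1 * b + (DG - (a + b)))) (by omega)
        have hGd' := hGd.degLE (l := 1) (c := DG - (a + b)) (i := 0)
          (k := 1 * a + 1 * b + (DG - (a + b))) (by omega)
        exact ⟨1 * a, 1 * b, DG - (a + b), 0, 5, F, G, by omega, Or.inl (by norm_num),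
          hFd', Or.inl ⟨Or.inr rfl, hGd', hG0, heq'⟩⟩
    · have h3 := mul_mem hN (mem_valr75 G x y N hx hy)
      rwa [div_mul_cancel₀ _ hG0] at h3
  · -- `n = 2, 3, 4, 6`
    obtain ⟨t, ht, h1⟩ : ∃ t : ℕ, t.Coprime n ∧ ∑ i, d i * (t * e i % n) ≤ n * (a + b) := by
      rcases hnat 1 hn (Nat.coprime_one_left _) with e1 | e1
      · exact ⟨1, Nat.coprime_one_left _, e1⟩
      · refine ⟨n - 1, ?_, e1⟩
        interval_cases n <;> first | norm_num | omega
    obtain ⟨w', -, hw', -, hgen⟩ := unit_change (by omega) ht e f hw0 h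
    refine ⟨w', ?_, hgen⟩
    have hP : Pool.Agent.Helper73.V7.IsPower Ω n x y w' := by
      refine ⟨a, b, n * (a + b), ∏ i, f i ^ (t * e i % n), hab, fun k hk hkn => ?_, ?_, ?_⟩
      · have h3 : k = 1 ∨ n - k = 1 := by
          interval_cases n <;> interval_cases k <;> first | omega | (exfalso; revert hkn; decide)
        rcases h3 with h3 | h3
        · left
          rw [h3, one_mul]
        · right
          rw [h3, one_mul]
      · intro m hm
        have h4 := ((Wd.prod hf _).mono h1) m hm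
        omega
      · rw [hw', map_prod]
        exact Finset.prod_congr rfl fun i _ => (map_pow _ _ _).symm
    exact hP.weighted hn

/-- **Cyclic covers of the weighted planes of degree at most six.** -/
theorem IsWCurve.row {Ω R M : Type} [Field Ω] [IsAlgClosed Ω] [Field R] [Field M] [Algebra Ω R]
    [Algebra Ω M] [Algebra R M] [IsScalarTower Ω R M] [FiniteDimensional R M] [IsGalois R M]
    (x y w : M) (hR : ∀ r : R, algebraMap R M r ∈ (adjoin Ω {x, y} : IntermediateField Ω M))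
    (hM : adjoin Ω {x, y, w} = ⊤)
    (h : IsWCurve Ω (Module.finrank (adjoin Ω {x, y} : IntermediateField Ω M) M) x y w) :
    Uniruled Ω M 2 ∨ LstM Ω R M := by
  have hwn : w ^ Module.finrank (adjoin Ω {x, y} : IntermediateField Ω M) M ∈
      (adjoin Ω {x, y} : IntermediateField Ω M) := by
    obtain ⟨a, b, r, d, e, f, -, -, -, -, h⟩ := h
    rw [h]
    exact prod_mem fun i _ => pow_mem
      (mem_valr75 (f i) x y _ (subset_adjoin _ _ (by simp)) (subset_adjoin _ _ (by simp))) _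
  obtain ⟨hn0, -, hw0⟩ := Pool.Agent.Helper15.WC.cyc_dataM (R := R) x y w hR hM rfl hwn
  rcases Nat.lt_or_ge 1 (Module.finrank (adjoin Ω {x, y} : IntermediateField Ω M) M) with h1 | h1
  · obtain ⟨w', hW, hgen⟩ := h.weighted h1 (hw0 h1)
    refine Or.inr ⟨x, y, w', hR, ?_, Or.inl hW⟩
    rw [eq_top_iff, ← hM, adjoin_le_iff]
    have hx : x ∈ adjoin Ω {x, y, w'} := subset_adjoin _ _ (by simp)
    have hy : y ∈ adjoin Ω {x, y, w'} := subset_adjoin _ _ (by simp)
    rintro s (hs | hs | hs)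
    · rw [hs]
      exact hx
    · rw [hs]
      exact hy
    · rw [hs]
      exact hgen _ hx hy (subset_adjoin _ _ (by simp))
  · left
    have hn1 : Module.finrank (adjoin Ω {x, y} : IntermediateField Ω M) M = 1 := by omega
    refine Pool.Agent.Helper35.TD.uniruled_surface (n := 1) x y w hM ?_
    rwa [hn1, pow_one] at hwn

end Pool.Agent.Helper48.V9
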