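import Pool.Agent.Helper48.WC.Abel

/-! Project V9: subfields of finitely generated fields. -/

set_option autoImplicit false

namespace Pool.Agent.Helper48.V9

open IntermediateField

/-- If `K` is finitely generated over `Ω` and algebraic over `R`, then `R` is finitely generated. -/
theorem fg_sub_alg {Ω K : Type} [Field Ω] [Field K] [Algebra Ω K] (R : IntermediateField Ω K)
    (hK : (⊤ : IntermediateField Ω K).FG) (hR : ∀ a : K, IsAlgebraic R a) :
    (⊤ : IntermediateField Ω R).FG := by
  classical
  have hess : Algebra.EssFiniteType Ω K := fg_top_iff.1 hK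
  have h1 : FinTrdeg Ω R := FinTrdeg.of_trdeg
    ((trdeg_le_of_injective R.val R.val.injective).trans_lt (trdeg_lt_aleph0 Ω K))
  obtain ⟨B, hB⟩ := exists_finset_isTranscendenceBasis Ω R
  obtain ⟨E, hE⟩ : ∃ E : IntermediateField Ω R, E = adjoin Ω (B : Set R) := ⟨_, rfl⟩
  have hEfg : E.FG := by
    rw [hE]
    exact fg_adjoin_of_finite (Finset.finite_toSet B)
  have hER : Algebra.IsAlgebraic E R := by
    have h2 := hB.isAlgebraic_field
    have h3 : E = adjoin Ω (Set.range ((↑) : B → R)) := by
      rw [hE]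
      congr 1
      ext a
      simp
    rw [h3]
    exact h2
  -- `K` is finite over `E`
  have hRK : Algebra.IsAlgebraic R K := ⟨hR⟩
  have hEK : Algebra.IsAlgebraic E K := Algebra.IsAlgebraic.trans E R K
  have hessE : Algebra.EssFiniteType E K := Algebra.EssFiniteType.of_comp Ω E K
  have hfin : Module.Finite E K := Algebra.finite_of_essFiniteType_of_isAlgebraic
  have hfinR : FiniteDimensional E R := FiniteDimensional.left E R K
  have h3 : FiniteDimensional E (⊤ : IntermediateField E R) := inferInstance
  have h4 := Pool.Agent.Helper48.WC.fg_restrict E hEfg (⊤ : IntermediateField E R)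
  exact h4

/-- the version with a homomorphism -/
theorem fg_of_hom {Ω K K₀ : Type} [Field Ω] [Field K] [Algebra Ω K] [Field K₀] [Algebra Ω K₀]
    (hK : (⊤ : IntermediateField Ω K).FG) (j : K₀ →ₐ[Ω] K)
    (hj : ∀ a : K, IsAlgebraic j.fieldRange a) : (⊤ : IntermediateField Ω K₀).FG := by
  classical
  obtain ⟨S, hS⟩ := fg_sub_alg j.fieldRange hK hj
  let e : K₀ ≃ₐ[Ω] j.fieldRange := AlgEquiv.ofInjectiveField j
  refine ⟨S.image e.symm, ?_⟩
  have h1 : (adjoin Ω (S : Set j.fieldRange)).map e.symm.toAlgHom =
      adjoin Ω (e.symm '' (S : Set j.fieldRange)) := adjoin_map _ _ _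
  rw [Finset.coe_image, ← h1, hS, eq_top_iff]
  intro a _
  exact ⟨e a, mem_top, e.symm_apply_apply a⟩

end Pool.Agent.Helper48.V9
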