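import Pool.Agent.Helper48.V9.Rows

/-! Project V9: the two coordinates of the wild twist. -/

set_option autoImplicit false

namespace Pool.Agent.Helper48.V9

open IntermediateField Pool.Agent.Helper75.QC Pool.Agent.Helper73.QX Pool.Agent.Helper73.WT

section

variable {k N : Type} [Field k] [Field N] [Algebra k N] {v s : N} {c : N} {p m : ℕ}

theorem alg_s (hm : 0 < m) (h : v ^ p - v = s ^ m - c) (hc : IsAlgebraic k c)
    (hv : IsAlgebraic k v) : IsAlgebraic k s := by
  refine IsAlgebraic.of_pow hm ?_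
  have h1 : s ^ m = v ^ p - v + c := by
    rw [h, sub_add_cancel]
  rw [h1]
  exact ((hv.pow p).sub hv).add hc

theorem alg_v (hp : 1 < p) (h : v ^ p - v = s ^ m - c) (hc : IsAlgebraic k c)
    (hs : IsAlgebraic k s) : IsAlgebraic k v := by
  have h1 : (Polynomial.X ^ p - Polynomial.X : Polynomial k).natDegree = p := by
    have h2 : (Polynomial.X : Polynomial k).natDegree < (Polynomial.X ^ p : Polynomial k).natDegree := by
      rw [Polynomial.natDegree_X_pow, Polynomial.natDegree_X]
      exact hp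
    rw [Polynomial.natDegree_sub_eq_left_of_natDegree_lt h2, Polynomial.natDegree_X_pow]
  have h2 : (Polynomial.X ^ p - Polynomial.X : Polynomial k) ≠ 0 := by
    intro h0
    rw [h0, Polynomial.natDegree_zero] at h1
    omega
  refine IsAlgebraic.of_aeval (Polynomial.X ^ p - Polynomial.X : Polynomial k) (by
    rw [h1]
    omega) (mem_nonZeroDivisors_of_ne_zero (Polynomial.leadingCoeff_ne_zero.2 h2)) ?_
  rw [map_sub, map_pow, Polynomial.aeval_X, h]
  exact (hs.pow m).sub hc

end

/-- `RowW` with the condition on the first coordinate -/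
def RowF (p : ℕ) (Ω R M : Type) [Field Ω] [Field R] [Field M] [Algebra Ω M] [Algebra R M] : Prop :=
  ∃ x y z w : M, z ∈ Acl Ω {x, y} ∧
    (∀ r : R, algebraMap R M r ∈ (adjoin Ω {x, y, z} : IntermediateField Ω M)) ∧
    adjoin Ω {x, y, z, w} = ⊤ ∧
    Module.finrank (adjoin Ω {x, y, z} : IntermediateField Ω M) M = p ∧
    w ^ p - w ∈ (adjoin Ω {x, y, z} : IntermediateField Ω M) ∧
    ∀ (N : Type) [Field N] [Algebra Ω N] (g : M →ₐ[Ω] N) (v s : N),
      Transcendental g.fieldRange v → v ^ p - v = s ^ aux p - g (w ^ p - w) →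
      Uniruled Ω (adjoin Ω {g x, g y, g z, v, s} : IntermediateField Ω N) 3

theorem rowF_iff {p : ℕ} (hp : 1 < p) {Ω R M : Type} [Field Ω] [Field R] [Field M] [Algebra Ω M]
    [Algebra R M] : RowF p Ω R M ↔ RowW p Ω R M := by
  constructor
  · rintro ⟨x, y, z, w, h1, h2, h3, h4, h5, h6⟩
    refine ⟨x, y, z, w, h1, h2, h3, h4, h5, fun N _ _ g v s hs h => h6 N g v s (fun hv => ?_) h⟩
    exact hs (alg_s (aux_prime p).pos h (isAlgebraic_algebraMap
      (⟨g (w ^ p - w), _, rfl⟩ : g.fieldRange)) hv)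
  · rintro ⟨x, y, z, w, h1, h2, h3, h4, h5, h6⟩
    refine ⟨x, y, z, w, h1, h2, h3, h4, h5, fun N _ _ g v s hv h => h6 N g v s (fun hs => ?_) h⟩
    exact hv (alg_v hp h (isAlgebraic_algebraMap
      (⟨g (w ^ p - w), _, rfl⟩ : g.fieldRange)) hs)

end Pool.Agent.Helper48.V9
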