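import Mathlib

/-! Project V9: the fields between `R` and `R(w)`, `w ^ n ∈ R`. -/

set_option autoImplicit false

namespace Pool.Agent.Helper48.V9

open IntermediateField

/-- The fields between `R` and `K = R(w)`, `w ^ n ∈ R`, `n = [K : R]`. -/
theorem kummer_fields {Ω K : Type} [Field Ω] [IsAlgClosed Ω] [Field K] [Algebra Ω K]
    (R : IntermediateField Ω K) {n : ℕ} (hn : (n : Ω) ≠ 0) {w : K} (hw : w ^ n ∈ R)
    (hK : adjoin R {w} = ⊤) (hfin : Module.finrank R K = n) :
    FiniteDimensional R K ∧ IsGalois R K ∧ (∀ g h : K ≃ₐ[R] K, g * h = h * g) ∧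
      ∀ M : IntermediateField R K, ∃ k m : ℕ, n = k * m ∧ M = adjoin R {w ^ m} ∧
        Module.finrank R M = k := by
  classical
  have hn0 : 0 < n := Nat.pos_of_ne_zero (by
    rintro rfl
    simp at hn)
  have hfd : FiniteDimensional R K := Module.finite_of_finrank_pos (by
    rw [hfin]
    exact hn0)
  have : NeZero (n : Ω) := ⟨hn⟩
  have : NeZero n := ⟨hn0.ne'⟩
  obtain ⟨ζ, hζ⟩ : ∃ ζ : Ω, IsPrimitiveRoot ζ n :=
    HasEnoughRootsOfUnity.exists_primitiveRoot Ω n
  have hζR : IsPrimitiveRoot (algebraMap Ω R ζ) n :=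
    hζ.map_of_injective (algebraMap Ω R).injective
  have hne : (primitiveRoots (Module.finrank R K) R).Nonempty := by
    rw [hfin]
    exact ⟨_, (mem_primitiveRoots hn0).2 hζR⟩
  obtain ⟨hgal, hcyc⟩ : IsGalois R K ∧ IsCyclic (K ≃ₐ[R] K) := by
    have h1 : ∃ α : K, α ^ Module.finrank R K ∈ Set.range (algebraMap R K) ∧ R⟮α⟯ = ⊤ :=
      ⟨w, by
        rw [hfin]
        exact ⟨⟨_, hw⟩, rfl⟩, hK⟩
    exact ((isCyclic_tfae R K hne).out 0 2).2 h1
  refine ⟨hfd, hgal, fun g h => ?_, fun M => ?_⟩
  · obtain ⟨c, hc⟩ := hcyc.exists_generator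
    obtain ⟨i, rfl⟩ := Subgroup.mem_zpowers_iff.1 (hc g)
    obtain ⟨j, rfl⟩ := Subgroup.mem_zpowers_iff.1 (hc h)
    rw [← zpow_add, ← zpow_add, add_comm]
  have hMK : FiniteDimensional M K := FiniteDimensional.right R M K
  obtain ⟨m, hm⟩ : ∃ m, m = Module.finrank M K := ⟨_, rfl⟩
  obtain ⟨k, hk⟩ : ∃ k, k = Module.finrank R M := ⟨_, rfl⟩
  have hkm : n = k * m := by
    rw [hk, hm, ← hfin]
    exact (Module.finrank_mul_finrank R M K).symm
  have hw0 : w ≠ 0 ∨ n = 1 := by
    by_cases h : w = 0
    · right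
      rw [h, adjoin_zero] at hK
      rw [← hfin, ← IntermediateField.finrank_top', ← hK, IntermediateField.finrank_bot]
    · exact Or.inl h
  have hm0 : 0 < m := Nat.pos_of_ne_zero (by
    rintro rfl
    rw [mul_zero] at hkm
    omega)
  have hk0 : 0 < k := Nat.pos_of_ne_zero (by
    rintro rfl
    rw [zero_mul] at hkm
    omega)
  -- `w ^ m ∈ M`
  have hgalM : IsGalois M K := IsGalois.tower_top_of_isGalois R M K
  have hwM : w ^ m ∈ M := by
    have h1 : w ^ m ∈ (⊥ : IntermediateField M K) := by
      rw [IsGalois.mem_bot_iff_fixed]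
      intro g
      rcases hw0 with hw0 | hn1
      · have hgw : (g w / w) ^ n = 1 := by
          rw [div_pow, ← map_pow, show g (w ^ n) = w ^ n from
            g.commutes ⟨w ^ n, M.algebraMap_mem ⟨_, hw⟩⟩, div_self (pow_ne_zero _ hw0)]
        have hζK : IsPrimitiveRoot (algebraMap Ω K ζ) n :=
          hζ.map_of_injective (algebraMap Ω K).injective
        obtain ⟨i, -, hi⟩ := hζK.eq_pow_of_pow_eq_one hgw
        have hgw' : g w = algebraMap Ω K (ζ ^ i) * w := by
          rw [map_pow, hi, div_mul_cancel₀ _ hw0]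
        have hfix : ∀ c : Ω, g (algebraMap Ω K c) = algebraMap Ω K c := fun c =>
          g.commutes ⟨algebraMap Ω K c, M.algebraMap_mem (algebraMap Ω R c)⟩
        have hpow : ∀ j : ℕ, (g ^ j) w = algebraMap Ω K ((ζ ^ i) ^ j) * w := by
          intro j
          induction j with
          | zero => simp
          | succ j ih =>
            rw [pow_succ', AlgEquiv.mul_apply, ih, map_mul, hfix, hgw', ← mul_assoc, ← map_mul,
              pow_succ]
        have hcard : Nat.card (K ≃ₐ[M] K) = m := by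
          rw [IsGalois.card_aut_eq_finrank, hm]
        have h2 : g ^ m = 1 := by
          rw [← hcard]
          exact pow_card_eq_one'
        have h3 := hpow m
        rw [h2, AlgEquiv.one_apply] at h3
        have h4 : algebraMap Ω K ((ζ ^ i) ^ m) = 1 := by
          have h5 : (algebraMap Ω K ((ζ ^ i) ^ m) - 1) * w = 0 := by
            rw [sub_mul, one_mul, ← h3, sub_self]
          exact sub_eq_zero.1 ((mul_eq_zero.1 h5).resolve_right hw0)
        rw [map_pow, hgw', mul_pow, ← map_pow, h4, one_mul]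
      · have h2 : m = 1 := by
          rw [hn1] at hkm
          exact Nat.eq_one_of_mul_eq_one_left hkm.symm
        have hcard : Nat.card (K ≃ₐ[M] K) = 1 := by
          rw [IsGalois.card_aut_eq_finrank, ← hm, h2]
        have h3 := (Nat.card_eq_one_iff_unique.1 hcard).1
        rw [h3.elim g 1, AlgEquiv.one_apply]
    obtain ⟨c, hc⟩ := mem_bot.1 h1
    rw [← hc]
    exact c.2
  refine ⟨k, m, hkm, ?_, hk.symm⟩
  -- the degrees
  obtain ⟨N, hN⟩ : ∃ N : IntermediateField R K, N = adjoin R {w ^ m} := ⟨_, rfl⟩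
  have hNM : N ≤ M := by
    rw [hN, adjoin_simple_le_iff]
    exact hwM
  have hmN : w ^ m ∈ N := by
    rw [hN]
    exact mem_adjoin_simple_self _ _
  have h1 : Module.finrank N K ≤ m := by
    have htop : adjoin N {w} = ⊤ := by
      rw [eq_top_iff]
      intro a _
      have h2 : adjoin R {w} ≤ (adjoin N {w}).restrictScalars R := by
        rw [adjoin_simple_le_iff]
        exact mem_adjoin_simple_self N w
      exact h2 (by
        rw [hK]
        exact mem_top)
    have hint : IsIntegral N w := Algebra.IsIntegral.isIntegral w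
    rw [← IntermediateField.finrank_top', ← htop, adjoin.finrank hint]
    have h3 : minpoly N w ∣ Polynomial.X ^ m - Polynomial.C (⟨w ^ m, hmN⟩ : N) := by
      refine minpoly.dvd N _ ?_
      rw [map_sub, map_pow, Polynomial.aeval_X, Polynomial.aeval_C]
      exact sub_self _
    have h4 := Polynomial.natDegree_le_of_dvd h3 (Polynomial.X_pow_sub_C_ne_zero hm0 _)
    rwa [Polynomial.natDegree_X_pow_sub_C] at h4
  have h2 : k ≤ Module.finrank R N := by
    have h3 : Module.finrank R N * Module.finrank N K = n := by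
      rw [Module.finrank_mul_finrank, hfin]
    have h4 : k * m ≤ Module.finrank R N * m := by
      rw [← hkm, ← h3]
      exact Nat.mul_le_mul_left _ h1
    exact Nat.le_of_mul_le_mul_right h4 hm0
  rw [← hN]
  exact (IntermediateField.eq_of_le_of_finrank_le hNM (by rw [← hk]; exact h2)).symm

end Pool.Agent.Helper48.V9
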