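import Pool.Agent.Helper35.V7.Tame3
import Pool.Agent.Helper73.WT.Prim
import Pool.Agent.Helper73.QX.Galois

/-! Project V9: the criterion for the covers `w ^ p - w ∈ Ω(x, y, z)` for the Galois action. -/

set_option autoImplicit false

namespace Pool.Agent.Helper48.V9

open IntermediateField Pool.Agent.Helper75.QC Pool.Agent.Helper35.TD Pool.Agent.Helper35.WC
  Pool.Agent.Helper35.V7 Pool.Agent.Helper73.QX Pool.Agent.Helper73.WT

/-- **The criterion** over `Ω(x, y, z)`. -/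
theorem wild3 {p : ℕ} [hpr : Fact p.Prime] {F Ω L : Type} [Field F] [Field Ω] [Algebra F Ω]
    [Algebra.IsAlgebraic F Ω] [IsAlgClosed Ω] [Algebra (ZMod p) Ω] [Field L] [CharZero L]
    [IsAlgClosed L] (T : GaloisTheory F Ω L) {K : Type} [Field K]
    [Algebra Ω K] (x y z w : K) (hz : z ∈ Acl Ω {x, y})
    (hK : adjoin Ω {x, y, z, w} = ⊤) (hw : w ^ p - w ∈ adjoin Ω {x, y, z})
    (hdeg : Module.finrank (adjoin Ω {x, y, z}) K = p)
    (huni : ∀ (N : Type) [Field N] [Algebra Ω N] (g : K →ₐ[Ω] N) (d s : N),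
      Transcendental g.fieldRange s → d ^ p - d = s ^ aux p - g (w ^ p - w) →
      Uniruled Ω (adjoin Ω {g x, g y, g z, d, s} : IntermediateField Ω N) 3)
    (hD : NoTate T (adjoin Ω {x, y, z} : IntermediateField Ω K)) :
    NoTate T K := by
  classical
  intro U₀ hU₀ γ hγ₀ t ht₀
  by_contra h0
  obtain ⟨U, hUU, hU, hfix⟩ := fixed_open_set {a : K | ∀ τ ∈ U₀, γ τ a = a} U₀ hU₀ γ hγ₀.1
    (fun τ hτ s hs => hs τ hτ) {x, y, z, w} (fun k _ => by
      rw [hγ₀.2]; exact mem_top)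
  simp only [Finset.mem_insert, Finset.mem_singleton, forall_eq_or_imp, forall_eq] at hfix
  have hγ : ∀ τ ∈ U, IsOver (τ : Ω ≃+* Ω) (γ τ) := fun τ hτ => hγ₀.1 τ (hUU hτ)
  have ht : ∀ τ ∈ U, T.act 2 (γ τ) t = ((T.cyc τ)⁻¹ : Lˣ) • t := fun τ hτ => ht₀ τ (hUU hτ)
  have hfin : (⊤ : IntermediateField Ω K).FG := by
    rw [← hK]
    exact fg_adjoin_of_finite (Set.toFinite _)
  have : FiniteDimensional L (T.H 2 K) := T.fin 2 K hfin
  have hp0 : p ≠ 0 := hpr.out.ne_zero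
  have hchK := charP_of p Ω K
  obtain ⟨B, hB⟩ : ∃ B : IntermediateField Ω K, B = adjoin Ω {x, y, z} := ⟨_, rfl⟩
  have hBw : adjoin Ω ((B : Set K) ∪ {w}) = ⊤ := by rw [hB, ← gen3 x y z w, hK]
  have hwB : w ^ p - w ∈ B := by
    rw [hB]
    exact hw
  obtain ⟨g1, g2⟩ := galois_of (p := p) (fun _ : Fin 1 => w) B (fun _ => hwB) (by
    intro M hM hwM
    rw [eq_top_iff, ← hBw, adjoin_le_iff]
    rintro c (hc | hc)
    · exact hM hc
    · rw [Set.mem_singleton_iff] at hc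
      rw [hc]
      exact hwM 0)
  -- the automorphism
  obtain ⟨g, hgB, hgw⟩ := exists_shift (p := p) (R := B) (M := K) B w (fun r => r.2) hBw
    (by rw [hB, hdeg]) hwB
  obtain ⟨σ, hσ'⟩ : ∃ σ : K →ₐ[Ω] K, σ = Pool.Agent.Helper75.WC.autHom Ω g := ⟨_, rfl⟩
  have hσ : (∀ k ∈ B, σ k = k) ∧ σ w = w + 1 := by
    rw [hσ']
    exact ⟨hgB, hgw⟩
  have mx : x ∈ B := by
    rw [hB]
    exact subset_adjoin _ _ (by simp)
  have my : y ∈ B := by
    rw [hB]
    exact subset_adjoin _ _ (by simp)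
  have mz : z ∈ B := by
    rw [hB]
    exact subset_adjoin _ _ (by simp)
  have hσp : σ ^ p = 1 := by
    refine Pool.Agent.Helper75.QC.hom_ext ((B : Set K) ∪ {w}) hBw _ _ ?_
    rintro e (he | he)
    · rw [(pow_sigma hσ _).1 e he]
      rfl
    · rw [Set.mem_singleton_iff] at he
      rw [he, (pow_sigma hσ _).2, CharP.cast_eq_zero, add_zero]
      rfl
  have hcomm : ∀ (τ : U) (r : T.H 2 K),
      T.act 2 (γ τ) (T.map 2 σ r) = T.map 2 σ (T.act 2 (γ τ) r) := by
    intro τ r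
    refine T.act_comm 2 {x, y, z, w} hK (τ : Ω ≃+* Ω) (γ τ) (hγ τ τ.2) σ ?_ r
    obtain ⟨h1, h2, h3, h4⟩ := hfix τ τ.2
    rintro s (rfl | rfl | rfl | rfl)
    · rw [hσ.1 _ mx, h1, hσ.1 _ mx]
    · rw [hσ.1 _ my, h2, hσ.1 _ my]
    · rw [hσ.1 _ mz, h3, hσ.1 _ mz]
    · rw [hσ.2, map_add, map_one, h4, hσ.2]
  obtain ⟨s, ξ, hs0, hs, hξs⟩ := exists_eigen (fun τ : U => T.act 2 (γ τ))
    (fun τ : U => (((T.cyc τ)⁻¹ : Lˣ) : L)) (T.map 2 σ) hcomm t
    (fun τ => ht τ τ.2) h0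
  have hξp : ξ ^ p = 1 := by
    have h2 := map_pow_eigen T.toCohomology 2 σ hξs p
    rw [hσp] at h2
    have h3 : T.map 2 (1 : K →ₐ[Ω] K) s = s := LinearMap.congr_fun (T.map_id 2 K) s
    rw [h3] at h2
    have h4 : (ξ ^ p - 1) • s = 0 := by
      rw [sub_smul, ← h2, one_smul, sub_self]
    exact sub_eq_zero.1 ((smul_eq_zero.1 h4).resolve_right hs0)
  have hform : IsForm U γ := by
    refine isForm_of_gens (fun τ hτ => hγ τ hτ) {x, y, z, w} hK fun τ hτ k hk => ?_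
    obtain ⟨h1, h2, h3, h4⟩ := hfix τ hτ
    rcases hk with rfl | rfl | rfl | rfl
    · exact h1
    · exact h2
    · exact h3
    · exact h4
  by_cases hξ1 : ξ = 1
  · -- the class comes from `B`
    rw [hξ1, one_smul] at hξs
    obtain ⟨s', hs'⟩ := T.descent 2 K B s (by
      intro τ
      have hfix' : ∀ e ∈ B, τ.restrictScalars Ω e = e := fun e he => τ.commutes ⟨e, he⟩
      obtain ⟨c, hc⟩ : ∃ c : ZMod p, τ.restrictScalars Ω w = w + em p Ω K c := by
        apply exists_em_of_eq p Ω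
        rw [← map_pow, ← map_sub, hfix' _ hwB]
      have h5 : τ.restrictScalars Ω = σ ^ c.val := by
        refine Pool.Agent.Helper75.QC.hom_ext ((B : Set K) ∪ {w}) hBw _ _ ?_
        rintro e (he | he)
        · rw [(pow_sigma hσ _).1 e he, hfix' e he]
        · rw [Set.mem_singleton_iff] at he
          rw [he, (pow_sigma hσ _).2, hc, em_val]
      show T.map 2 (τ.restrictScalars Ω) s = s
      rw [h5]
      have h6 := map_pow_eigen T.toCohomology 2 σ (ξ := (1 : L)) (t := s)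
        (by rw [one_smul]; exact hξs) c.val
      rw [one_pow, one_smul] at h6
      exact h6)
    rw [← hB] at hD
    refine hs0 (zero_of_range T ?_ hD _ ?_ U
      hU γ hform s (fun τ hτ => hs ⟨τ, hτ⟩) s' hs')
    · rw [hB]
      exact Pool.Agent.Helper75.WC.fg_sub (Set.toFinite _)
    · intro k
      rw [fieldRange_val]
      exact Algebra.IsAlgebraic.isAlgebraic k
  -- the class belongs to a nontrivial character
  have hξ0 : ξ ≠ 0 := by
    rintro rfl
    rw [zero_pow hp0] at hξp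
    exact zero_ne_one hξp
  have hm := aux_prime p
  obtain ⟨C, N, iC, jC, iN, jN, u, v, a, b, hu, hv, hCt, hb, hN, huniv⟩ :=
    exists_as_curve p (Ω := Ω) hm K
  have hchC := charP_of p Ω C
  obtain ⟨σC, hσC⟩ : ∃ τ : C →ₐ[Ω] C, τ u = u + 1 ∧ τ v = v := by
    obtain ⟨τ, h1, h2⟩ := huniv C _ _ (transcendental_add hu 1) (by rw [sub_add_em, hv])
    rw [map_one] at h1
    exact ⟨τ, h1, h2⟩
  have hfinC : (⊤ : IntermediateField Ω C).FG := by
    rw [← hCt]
    exact fg_adjoin_of_finite (Set.toFinite _)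
  obtain ⟨c0, hc0, hc0'⟩ := Pool.Agent.Helper35.WW.wildCurve_aux (p := p) T.toBaseTheory C u v σC
    hu hv hCt hσC.1 hσC.2 ξ⁻¹ (by rw [inv_pow, hξp, inv_one]) (by
      intro h
      exact hξ1 (inv_eq_one.1 h))
  choose γ' hγ' using fun τ : Ω ≃ₐ[F] Ω => exists_semilinear u v hu hv huniv (τ : Ω ≃+* Ω)
  have hst : Transcendental a.fieldRange (b v) := by
    intro h3
    apply hb
    have h4 : IsAlgebraic (algebraicClosure a.fieldRange N) (b u) := by
      obtain ⟨P, hP1, hP2, -⟩ := as_poly p Ω (F := algebraicClosure a.fieldRange N) (b u)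
        ⟨b v ^ aux p, pow_mem ((mem_algebraicClosure_iff).2 h3) _⟩ (by
          have e1 : b u ^ p - b u = b v ^ aux p := by
            rw [← map_pow, ← map_sub, hv, map_pow]
          rw [e1]
          rfl)
      exact ⟨P, hP1.ne_zero, hP2⟩
    exact h4.restrictScalars a.fieldRange
  have huni' : Uniruled Ω (adjoin Ω (a '' (B : Set K) ∪ {b u - a w, b v}) :
      IntermediateField Ω N) 3 := by
    rw [hB, img3]
    refine huni N a (b u - a w) (b v) hst ?_
    have := charP_of p Ω N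
    rw [sub_pow_char, ← map_pow b v (aux p), ← hv, map_sub, map_sub, map_pow, map_pow]
    ring
  refine hs0 (T.eq_zero_of_cup a b x y u U γ γ' hfin hfinC ?_ ?_ hb hU hform ?_ s
    (fun τ hτ => hs ⟨τ, hτ⟩) c0 hc0 ?_)
  · exact fun k => alg_wild hpr.out.two_le hz hK hw k
  · intro k
    exact sq_pow_ne hm.pos hu hv k hCt
  · refine isForm_of_gens (fun τ _ => (hγ' τ).1) {u, v} hCt fun τ _ k hk => ?_
    rcases hk with rfl | hk
    · exact (hγ' τ).2.1
    · rw [Set.mem_singleton_iff] at hk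
      rw [hk]
      exact (hγ' τ).2.2
  · exact cross_wild T.toBaseTheory B w hBw hwB σ hσ u v hCt a b hN σC hσC
      huni' hξ0 c0 hc0' s hξs

end Pool.Agent.Helper48.V9
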